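import Pool.Agent.H37.CND.Stmts

/-!
# Board `cnd`, row TOT: total ramification
-/

set_option autoImplicit false

namespace Pool.CND

open Finset

namespace TOTaux

variable {k L : Type} [Field k] [Field L] [Algebra k L]

/-- order of a product -/
theorem ord_prod (P : Place k L) {ι : Type} (s : Finset ι) (f : ι → L) (h : ∀ i ∈ s, f i ≠ 0) :
    P.ord (∏ i ∈ s, f i) = ∑ i ∈ s, P.ord (f i) := by
  classical
  induction s using Finset.induction_on with
  | empty => simp [P.ord_one]
  | insert a s ha ih =>
    rw [Finset.prod_insert ha, Finset.sum_insert ha,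
      P.ord_mul _ _ (h a (mem_insert_self a s))
        (Finset.prod_ne_zero_iff.2 fun i hi => h i (mem_insert_of_mem hi)),
      ih (fun i hi => h i (mem_insert_of_mem hi))]

variable {G : Type} [Group G]

/-- the core: a nonzero fixed element `w` of order `d > 0` forces `|N| ≤ d` -/
theorem core (P : Place k L) (ρ : G →* (L ≃ₐ[k] L)) (N : Subgroup G) [Fintype N]
    (hρ : Function.Injective ρ) (hfix : ∀ n ∈ N, Fixes P (ρ n)) (w : L) (d : ℕ) (hd : 0 < d)
    (hw0 : w ≠ 0) (hw : ∀ n ∈ N, ρ n w = w) (hwd : P.ord w = d) :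
    Fintype.card N ≤ d := by
  classical
  by_contra hlt
  rw [not_le] at hlt
  -- a nonzero combination killing the powers of `u`
  let A : (N → L) →ₗ[L] (Fin d → L) :=
    { toFun := fun c j => ∑ n : N, c n * ρ n (P.pi ^ (j : ℕ))
      map_add' := by
        intro c c'
        funext j
        simp only [Pi.add_apply, add_mul, Finset.sum_add_distrib]
      map_smul' := by
        intro a c
        funext j
        simp only [Pi.smul_apply, smul_eq_mul, RingHom.id_apply, Finset.mul_sum, mul_assoc] }
  have hker : LinearMap.ker A ≠ ⊥ := by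
    apply LinearMap.ker_ne_bot_of_finrank_lt
    simpa using hlt
  obtain ⟨c, hc, hc0⟩ := Submodule.exists_mem_ne_zero_of_ne_bot hker
  have hA : ∀ j < d, ∑ n : N, c n * ρ n (P.pi ^ j) = 0 := by
    intro j hj
    exact congrFun (LinearMap.mem_ker.1 hc) ⟨j, hj⟩
  -- a lower bound of the orders of the coefficients
  obtain ⟨C, hC⟩ : ∃ C : ℤ, ∀ n : N, P.Ge (c n) C := by
    have h0 : (Finset.univ : Finset N).Nonempty := ⟨1, Finset.mem_univ _⟩
    refine ⟨Finset.univ.inf' h0 fun n => P.ord (c n), fun n => ?_⟩
    exact Or.inr (Finset.inf'_le _ (Finset.mem_univ n))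
  -- the approximation
  have key : ∀ (K : ℕ) (z : L), z ≠ 0 →
      P.Ge (∑ n : N, c n * ρ n z) (C + P.ord z + K) := by
    intro K
    induction K with
    | zero =>
      intro z hz
      apply P.ge_sum
      intro n _
      have h1 : P.Ge (ρ n z) (P.ord z) := (hfix n n.2).ge (P.ge_ord z)
      have h2 := P.ge_mul (hC n) h1
      simpa using h2
    | succ K ih =>
      intro z hz
      have hd' : (0 : ℤ) < d := by exact_mod_cast hd
      have hj0 := Int.emod_nonneg (P.ord z) hd'.ne'
      have hj1 := Int.emod_lt_of_pos (P.ord z) hd'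
      obtain ⟨j, hj⟩ := Int.eq_ofNat_of_zero_le hj0
      have hjd : j < d := by omega
      set y : L := w ^ (P.ord z / d) * P.pi ^ j with hy
      have hy0 : y ≠ 0 := mul_ne_zero (zpow_ne_zero _ hw0) (pow_ne_zero _ P.pi_ne)
      have hyo : P.ord y = P.ord z := by
        rw [hy, P.ord_mul _ _ (zpow_ne_zero _ hw0) (pow_ne_zero _ P.pi_ne), P.ord_zpow hw0,
          P.ord_pow P.pi_ne, P.ord_pi, hwd, mul_one]
        have h3 := Int.emod_add_mul_ediv (P.ord z) d
        have h4 : P.ord z / d * d = d * (P.ord z / d) := mul_comm _ _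
        rw [h4]
        omega
      have hq0 : z / y ≠ 0 := div_ne_zero hz hy0
      have hqo : P.ord (z / y) = 0 := by
        rw [P.ord_div hz hy0, hyo, sub_self]
      obtain ⟨a, ha⟩ := P.residue (z / y) hq0 hqo.ge
      have hge : P.Ge (z / y - algebraMap k L a) 1 := by
        rcases ha with ha | ha
        · exact Or.inl (by rw [← ha, sub_self])
        · exact Or.inr (by omega)
      have hr : P.Ge (z - algebraMap k L a * y) (P.ord z + 1) := by
        have h5 := P.ge_mul hge (P.ge_ord y)
        have h6 : (z / y - algebraMap k L a) * y = z - algebraMap k L a * y := by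
          field_simp
        rw [h6, hyo] at h5
        exact P.ge_mono h5 (by omega)
      have hfixw : ∀ n : N, ρ n (w ^ (P.ord z / d)) = w ^ (P.ord z / d) := by
        intro n
        rw [map_zpow₀, hw n n.2]
      have hsum : ∑ n : N, c n * ρ n z =
          ∑ n : N, c n * ρ n (z - algebraMap k L a * y) := by
        have h7 : ∑ n : N, c n * ρ n (algebraMap k L a * y) = 0 := by
          have h8 : ∀ n : N, c n * ρ n (algebraMap k L a * y) =
              algebraMap k L a * w ^ (P.ord z / d) * (c n * ρ n (P.pi ^ j)) := by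
            intro n
            rw [hy, map_mul, map_mul, hfixw, AlgEquiv.commutes]
            ring
          rw [Finset.sum_congr rfl fun n _ => h8 n, ← Finset.mul_sum, hA j hjd, mul_zero]
        have h9 : ∀ n : N, c n * ρ n z = c n * ρ n (z - algebraMap k L a * y) +
            c n * ρ n (algebraMap k L a * y) := by
          intro n
          rw [map_sub]
          ring
        rw [Finset.sum_congr rfl fun n _ => h9 n, Finset.sum_add_distrib, h7, add_zero]
      rw [hsum]
      by_cases hr0 : z - algebraMap k L a * y = 0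
      · rw [hr0]
        simp only [map_zero, mul_zero, Finset.sum_const_zero]
        exact P.ge_zero _
      · have h10 := ih _ hr0
        have h11 := hr.resolve_left hr0
        refine P.ge_mono h10 ?_
        push_cast
        omega
  have hzero : ∀ z : L, ∑ n : N, c n * ρ n z = 0 := by
    intro z
    by_cases hz : z = 0
    · rw [hz]
      simp
    by_contra hne
    have h1 := key (P.ord (∑ n : N, c n * ρ n z) - C - P.ord z + 1).toNat z hz
    have h2 := h1.resolve_left hne
    have h3 := Int.self_le_toNat (P.ord (∑ n : N, c n * ρ n z) - C - P.ord z + 1)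
    omega
  -- Dedekind
  have hlin := linearIndependent_monoidHom L L
  let φ : N → (L →* L) := fun n => ((ρ n : L ≃ₐ[k] L) : L →* L)
  have hφ : Function.Injective φ := by
    intro n n' h
    have h1 : ρ (n : G) = ρ (n' : G) := by
      ext x
      exact DFunLike.congr_fun h x
    exact Subtype.ext (hρ h1)
  have hlin2 := hlin.comp φ hφ
  have h1 := Fintype.linearIndependent_iff.1 hlin2 c (by
    funext z
    have h2 := hzero z
    simpa [φ, Finset.sum_apply] using h2)
  exact hc0 (funext h1)

end TOTaux

open TOTaux in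
theorem tot_thm : S_TOT := by
  classical
  intro k L G _ _ _ _ _ P ρ N hρ hfix x hx hxf
  have : Fintype G := Fintype.ofFinite G
  have : Fintype N := Fintype.ofFinite N
  -- the norm of the uniformiser
  have hnorm : ∃ w : L, w ≠ 0 ∧ (∀ n ∈ N, ρ n w = w) ∧ P.ord w = Fintype.card N := by
    refine ⟨∏ n : N, ρ n P.pi, ?_, ?_, ?_⟩
    · exact Finset.prod_ne_zero_iff.2 fun n _ => by simpa using P.pi_ne
    · intro n hn
      rw [map_prod]
      refine Fintype.prod_equiv (Equiv.mulLeft (⟨n, hn⟩ : N)) _ _ ?_
      intro n'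
      simp [AlgEquiv.mul_apply]
    · rw [ord_prod P _ _ (fun n _ => by simpa using P.pi_ne)]
      have h1 : ∀ n : N, P.ord (ρ n P.pi) = 1 := by
        intro n
        rw [hfix n n.2 _ P.pi_ne, P.ord_pi]
      rw [Finset.sum_congr rfl fun n _ => h1 n]
      simp
  have hex : ∃ d : ℕ, 0 < d ∧ ∃ w : L, w ≠ 0 ∧ (∀ n ∈ N, ρ n w = w) ∧ P.ord w = d := by
    obtain ⟨w, h1, h2, h3⟩ := hnorm
    exact ⟨Fintype.card N, Fintype.card_pos, w, h1, h2, h3⟩
  have hd := Nat.find_spec hex
  have hmin := fun m (hm : m < Nat.find hex) => Nat.find_min hex hm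
  set d := Nat.find hex with hdd
  obtain ⟨hd0, w, hw0, hwf, hwd⟩ := hd
  have hle : Fintype.card N ≤ d := core P ρ N hρ hfix w d hd0 hw0 hwf hwd
  have hge : d ≤ Fintype.card N := by
    obtain ⟨w', h1, h2, h3⟩ := hnorm
    exact Nat.find_min' hex ⟨Fintype.card_pos, w', h1, h2, h3⟩
  have hdN : d = Fintype.card N := le_antisymm hge hle
  have hdiv : (d : ℤ) ∣ P.ord x := by
    have hd' : (0 : ℤ) < d := by exact_mod_cast hd0
    rw [Int.dvd_iff_emod_eq_zero]
    by_contra hne
    have hj0 := Int.emod_nonneg (P.ord x) hd'.ne'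
    have hj1 := Int.emod_lt_of_pos (P.ord x) hd'
    obtain ⟨j, hj⟩ := Int.eq_ofNat_of_zero_le hj0
    have hz0 : x * w ^ (-(P.ord x / d)) ≠ 0 := mul_ne_zero hx (zpow_ne_zero _ hw0)
    refine hmin j (by omega) ⟨by omega, x * w ^ (-(P.ord x / d)), hz0, ?_, ?_⟩
    · intro n hn
      rw [map_mul, map_zpow₀, hxf n hn, hwf n hn]
    · rw [P.ord_mul _ _ hx (zpow_ne_zero _ hw0), P.ord_zpow hw0, hwd]
      have h3 := Int.emod_add_mul_ediv (P.ord x) d
      have h4 : -(P.ord x / d) * d = -(d * (P.ord x / d)) := by ring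
      rw [h4]
      omega
  rw [Nat.card_eq_fintype_card, ← hdN]
  exact hdiv

end Pool.CND
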